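import Mathlib

/-!
# Convex bodies homothetic to `Π₁² K`

For `d ≥ 3` a convex body `K` of `ℝᵈ` such that `Π₁² K` is homothetic to `K` is a ball
(the case `j = 1` of the second question).
-/

set_option autoImplicit false

namespace Pool.Agent.Results.MP_33e5ad_gt.SecondIterateOne

open MeasureTheory Metric Set

/-- `n`-dimensional Euclidean space. -/
abbrev En (n : ℕ) := EuclideanSpace ℝ (Fin n)

section General

variable {F : Type*} [NormedAddCommGroup F] [InnerProductSpace ℝ F]

/-- The support function `h_K(u) = max {⟨x,u⟩ : x ∈ K}`. -/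
noncomputable def supp (K : Set F) (u : F) : ℝ := sSup ((fun x => inner ℝ x u) '' K)

/-- A convex body: a compact convex set with nonempty interior. -/
structure IsBody (K : Set F) : Prop where
  compact : IsCompact K
  convex : Convex ℝ K
  int : (interior K).Nonempty

/-- The volume of the unit ball of `ℝ^m`. -/
noncomputable def kappa (m : ℕ) : ℝ := (volume (ball (0 : En m) 1)).toReal

variable [FiniteDimensional ℝ F] [MeasurableSpace F] [BorelSpace F]

/-- The first intrinsic volume of a compact convex set `L` in an `m`-dimensional Euclidean space: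
`V₁(L) = κ_{m-1}⁻¹ ∫_{S^{m-1}} h_L`, i.e. `m κ_m / (2 κ_{m-1})` times the mean width. -/
noncomputable def V1 (L : Set F) : ℝ :=
  (kappa (Module.finrank ℝ F - 1))⁻¹ *
    ∫ v : sphere (0 : F) 1, supp L (v : F) ∂(volume : Measure F).toSphere

end General

/-- The hyperplane `u^⊥`. -/
noncomputable def hyper {n : ℕ} (u : En n) : Submodule ℝ (En n) := (Submodule.span ℝ {u})ᗮ

/-- The orthogonal projection `K | u^⊥`, as a subset of the hyperplane. -/
noncomputable def proj {n : ℕ} (u : En n) (K : Set (En n)) : Set (hyper u) :=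
  (hyper u).orthogonalProjectionOnto '' K

/-- `L` is the first projection body of `K`: `L` is a convex body with
`h_L(u) = V₁(K | u^⊥)` for all unit vectors `u`. -/
def IsProjBody {n : ℕ} (K L : Set (En n)) : Prop :=
  IsBody L ∧ ∀ u : En n, ‖u‖ = 1 → supp L u = V1 (proj u K)

/-- `M` and `K` are homothetic. -/
def Homothetic {n : ℕ} (M K : Set (En n)) : Prop :=
  ∃ (x : En n) (c : ℝ), 0 < c ∧ M = (fun y => x + c • y) '' K

/-- integral over the unit sphere of the hyperplane `u^⊥` -/
noncomputable def SI {n : ℕ} (u : En n) (f : En n → ℝ) : ℝ :=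
  ∫ v : sphere (0 : hyper u) 1, f ((v : hyper u) : En n) ∂(volume : Measure (hyper u)).toSphere

/-- the total mass of the sphere of a hyperplane -/
noncomputable def mass (n : ℕ) : ℝ := ((n - 1 : ℕ) : ℝ) * kappa (n - 1)


/-! ### jS -/

theorem supp_cont {n : ℕ} (K : Set (En n)) (hK : IsCompact K) (hne : K.Nonempty) :
    Continuous (supp K) := by
  have h := hK.continuous_sSup (f := fun (u : En n) (x : En n) => (inner ℝ x u : ℝ))
    (continuous_snd.inner continuous_fst)
  exact h

theorem supp_hom {n : ℕ} (K : Set (En n)) (hK : IsCompact K) (hne : K.Nonempty) (x : En n) (c : ℝ)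
    (hc : 0 < c) (u : En n) :
    supp ((fun y => x + c • y) '' K) u = inner ℝ x u + c * supp K u := by
  obtain ⟨x0, hx0, he, hge⟩ := hK.exists_sSup_image_eq_and_ge hne
    (f := fun y : En n => (inner ℝ y u : ℝ)) (continuous_id.inner continuous_const).continuousOn
  have hs : supp K u = inner ℝ x0 u := he
  rw [hs]
  unfold supp
  rw [Set.image_image]
  apply IsGreatest.csSup_eq
  constructor
  · refine ⟨x0, hx0, ?_⟩
    beta_reduce
    rw [inner_add_left, real_inner_smul_left]
  · rintro _ ⟨y, hy, rfl⟩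
    beta_reduce
    rw [inner_add_left, real_inner_smul_left]
    have := mul_le_mul_of_nonneg_left (hge y hy) hc.le
    linarith

theorem supp_proj {n : ℕ} (K : Set (En n)) (u : En n) (v : hyper u) :
    supp (proj u K) v = supp K (v : En n) := by
  unfold supp proj
  rw [Set.image_image]
  congr 1
  apply Set.image_congr
  intro x _
  exact Submodule.inner_orthogonalProjectionOnto_eq_of_mem_right v x

theorem supp_ball {n : ℕ} (z : En n) (r : ℝ) (hr : 0 ≤ r) (u : En n) :
    supp (closedBall z r) u = inner ℝ z u + r * ‖u‖ := by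
  unfold supp
  apply IsGreatest.csSup_eq
  constructor
  · refine ⟨z + (r / ‖u‖) • u, ?_, ?_⟩
    · rw [mem_closedBall, dist_eq_norm, add_sub_cancel_left, norm_smul, norm_div, norm_norm,
        Real.norm_of_nonneg hr]
      by_cases hu : ‖u‖ = 0
      · rw [hu]
        simpa using hr
      · rw [div_mul_cancel₀ _ hu]
    · beta_reduce
      rw [inner_add_left, real_inner_smul_left, real_inner_self_eq_norm_sq]
      by_cases hu : ‖u‖ = 0
      · rw [hu]
        simp
      · field_simp
  · rintro _ ⟨y, hy, rfl⟩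
    beta_reduce
    rw [mem_closedBall, dist_eq_norm] at hy
    have h1 : (inner ℝ y u : ℝ) = inner ℝ z u + inner ℝ (y - z) u := by
      rw [inner_sub_left]
      ring
    have h2 : (inner ℝ (y - z) u : ℝ) ≤ ‖y - z‖ * ‖u‖ := real_inner_le_norm _ _
    have h3 := mul_le_mul_of_nonneg_right hy (norm_nonneg u)
    linarith

/-! ### jB -/

theorem jB_le_supp_of_mem {n : ℕ} (K : Set (En n)) (hK : IsCompact K) (x : En n) (hx : x ∈ K)
    (u : En n) : inner ℝ x u ≤ supp K u := by
  have hc : Continuous (fun x : En n => inner ℝ x u) := by fun_prop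
  exact le_csSup (hK.image hc).bddAbove ⟨x, hx, rfl⟩

theorem jB_exists_width {n : ℕ} (K : Set (En n)) (hK : IsBody K) :
    ∃ (p : En n) (δ : ℝ), 0 < δ ∧ ∀ u : En n, ‖u‖ = 1 → inner ℝ p u + δ ≤ supp K u := by
  obtain ⟨p, hp⟩ := hK.int
  rw [mem_interior_iff_mem_nhds, Metric.mem_nhds_iff] at hp
  obtain ⟨ε, hε, hb⟩ := hp
  refine ⟨p, ε / 2, by positivity, fun u hu => ?_⟩
  have h1 : p + (ε / 2) • u ∈ K := by
    apply hb
    rw [mem_ball, dist_eq_norm, add_sub_cancel_left, norm_smul, hu, Real.norm_eq_abs,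
      abs_of_pos (by positivity)]
    linarith
  have h2 := jB_le_supp_of_mem K hK.compact _ h1 u
  rw [inner_add_left, inner_smul_left, real_inner_self_eq_norm_sq, hu] at h2
  simpa using h2

theorem ball_of_supp {n : ℕ} (hn : 1 ≤ n) (K : Set (En n)) (hK : IsBody K) (z : En n) (r : ℝ)
    (h : ∀ u : En n, ‖u‖ = 1 → supp K u = inner ℝ z u + r) : 0 < r ∧ K = closedBall z r := by
  have hr : 0 < r := by
    obtain ⟨p, δ, hδ, hp⟩ := jB_exists_width K hK
    have hu : ‖(EuclideanSpace.single (⟨0, hn⟩ : Fin n) (1:ℝ) : En n)‖ = 1 := by simp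
    have h1 := hp _ hu
    have h2 := hp (-(EuclideanSpace.single (⟨0, hn⟩ : Fin n) (1:ℝ) : En n)) (by
      rw [norm_neg, hu])
    rw [h _ hu] at h1
    rw [h _ (by rw [norm_neg, hu]), inner_neg_right, inner_neg_right] at h2
    linarith
  refine ⟨hr, Set.Subset.antisymm ?_ ?_⟩
  · intro x hx
    rw [mem_closedBall, dist_eq_norm]
    by_cases hxz : x - z = 0
    · rw [hxz, norm_zero]
      exact hr.le
    · have hn0 : ‖x - z‖ ≠ 0 := norm_ne_zero_iff.2 hxz
      have hu : ‖(‖x - z‖⁻¹) • (x - z)‖ = 1 := by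
        rw [norm_smul, norm_inv, norm_norm, inv_mul_cancel₀ hn0]
      have h1 := jB_le_supp_of_mem K hK.compact x hx ((‖x - z‖⁻¹) • (x - z))
      rw [h _ hu] at h1
      have h2 : inner ℝ (x - z) ((‖x - z‖⁻¹) • (x - z)) = ‖x - z‖ := by
        rw [inner_smul_right, real_inner_self_eq_norm_sq, sq, ← mul_assoc, inv_mul_cancel₀ hn0,
          one_mul]
      rw [inner_sub_left] at h2
      linarith
  · intro y hy
    by_contra hyK
    obtain ⟨f, s, hf1, hf2⟩ := geometric_hahn_banach_closed_point hK.convex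
      hK.compact.isClosed hyK
    obtain ⟨w, hw⟩ : ∃ w : En n, ∀ x, inner ℝ w x = f x :=
      ⟨(InnerProductSpace.toDual ℝ (En n)).symm f, fun x =>
        InnerProductSpace.toDual_symm_apply⟩
    obtain ⟨p, hp⟩ := hK.int
    have hpK := interior_subset hp
    have hw0 : w ≠ 0 := by
      rintro rfl
      have h1 := hf1 p hpK
      rw [← hw, inner_zero_left] at h1
      rw [← hw, inner_zero_left] at hf2
      linarith
    have hwn : 0 < ‖w‖ := norm_pos_iff.2 hw0
    have hu : ‖(‖w‖⁻¹) • w‖ = 1 := by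
      rw [norm_smul, norm_inv, norm_norm, inv_mul_cancel₀ hwn.ne']
    have hiu : ∀ x, inner ℝ x ((‖w‖⁻¹) • w) = ‖w‖⁻¹ * f x := by
      intro x
      rw [inner_smul_right, real_inner_comm, hw]
    have h1 : supp K ((‖w‖⁻¹) • w) ≤ ‖w‖⁻¹ * s := by
      refine csSup_le ⟨_, ⟨p, hpK, rfl⟩⟩ ?_
      rintro _ ⟨x, hx, rfl⟩
      show inner ℝ x ((‖w‖⁻¹) • w) ≤ _
      rw [hiu]
      exact mul_le_mul_of_nonneg_left (hf1 x hx).le (by positivity)
    have h2 : ‖w‖⁻¹ * s < inner ℝ y ((‖w‖⁻¹) • w) := by
      rw [hiu]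
      exact mul_lt_mul_of_pos_left hf2 (by positivity)
    have h3 : inner ℝ (y - z) ((‖w‖⁻¹) • w) ≤ r := by
      refine (real_inner_le_norm _ _).trans ?_
      rw [hu, mul_one, ← dist_eq_norm]
      exact hy
    rw [inner_sub_left] at h3
    rw [h _ hu] at h1
    linarith

theorem isBody_ball {n : ℕ} (z : En n) (r : ℝ) (hr : 0 < r) : IsBody (closedBall z r) := by
  exact ⟨isCompact_closedBall z r, convex_closedBall z r,
    ⟨z, ball_subset_interior_closedBall (mem_ball_self hr)⟩⟩

theorem supp_pos {n : ℕ} (M : Set (En n)) (hM : IsBody M)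
    (heven : ∀ u : En n, ‖u‖ = 1 → supp M (-u) = supp M u) (u : En n) (hu : ‖u‖ = 1) :
    0 < supp M u := by
  obtain ⟨p, δ, hδ, hp⟩ := jB_exists_width M hM
  have h1 := hp u hu
  have h2 := hp (-u) (by rw [norm_neg, hu])
  rw [heven u hu, inner_neg_right] at h2
  linarith

/-! ### jK -/

theorem kappa_pos (m : ℕ) : 0 < kappa m := by
  unfold kappa
  exact ENNReal.toReal_pos (measure_ball_pos _ _ one_pos).ne' measure_ball_lt_top.ne

theorem mass_pos {n : ℕ} (hn : 2 ≤ n) : 0 < mass n := by
  unfold mass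
  apply mul_pos
  · exact_mod_cast (by omega : 0 < n - 1)
  · exact kappa_pos _

theorem hyper_finrank {n : ℕ} (u : En n) (hu : ‖u‖ = 1) : Module.finrank ℝ (hyper u) = n - 1 := by
  have hu0 : u ≠ 0 := by
    rintro rfl
    simp at hu
  have h1 := Submodule.finrank_add_finrank_orthogonal (𝕜 := ℝ) (Submodule.span ℝ {u})
  rw [finrank_span_singleton hu0, finrank_euclideanSpace_fin] at h1
  unfold hyper
  omega

/-- the first intrinsic volume of the projection as an integral -/
theorem V1_proj {n : ℕ} (K : Set (En n)) (u : En n) (hu : ‖u‖ = 1) :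
    V1 (proj u K) = (kappa (n - 2))⁻¹ * SI u (supp K) := by
  unfold V1 SI
  rw [hyper_finrank u hu, Nat.sub_sub]
  congr 1
  apply integral_congr_ae
  filter_upwards with v
  exact supp_proj K u v

theorem jK_SI_even_aux {n : ℕ} (f : En n → ℝ) (S T : Submodule ℝ (En n)) (h : S = T) :
    (∫ v : sphere (0 : S) 1, f ((v : S) : En n) ∂(volume : Measure S).toSphere) =
    (∫ v : sphere (0 : T) 1, f ((v : T) : En n) ∂(volume : Measure T).toSphere) := by
  subst h
  rfl

theorem SI_even {n : ℕ} (u : En n) (f : En n → ℝ) : SI (-u) f = SI u f := by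
  unfold SI
  apply jK_SI_even_aux
  unfold hyper
  congr 1
  rw [← Set.neg_singleton, Submodule.span_neg]

theorem jK_ball_kappa {F : Type*} [NormedAddCommGroup F] [InnerProductSpace ℝ F]
    [FiniteDimensional ℝ F] [MeasurableSpace F] [BorelSpace F] (m : ℕ)
    (h : Module.finrank ℝ F = m) : (volume : Measure F).real (ball (0 : F) 1) = kappa m := by
  subst h
  have := ((stdOrthonormalBasis ℝ F).measurePreserving_repr_symm).measure_preimage
    (s := ball 0 1) measurableSet_ball.nullMeasurableSet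
  unfold kappa
  rw [Measure.real, ← this]
  congr 2
  simp only [LinearIsometryEquiv.preimage_ball, LinearIsometryEquiv.symm_symm, map_zero]

theorem SI_const {n : ℕ} (u : En n) (hu : ‖u‖ = 1) (B : ℝ) : SI u (fun _ => B) = mass n * B := by
  unfold SI mass
  rw [integral_const, Measure.toSphere_real_apply_univ, hyper_finrank u hu,
    jK_ball_kappa (n - 1) (hyper_finrank u hu), smul_eq_mul]

/-! ### jA -/

theorem jA_SI_integrable {n : ℕ} (u : En n) (f : En n → ℝ) (hf : Continuous f) :
    Integrable (fun v : sphere (0 : hyper u) 1 => f ((v : hyper u) : En n))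
      (volume : Measure (hyper u)).toSphere := by
  have hc : Continuous (fun v : sphere (0 : hyper u) 1 => f ((v : hyper u) : En n)) :=
    hf.comp (continuous_subtype_val.comp continuous_subtype_val)
  haveI : CompactSpace (sphere (0 : hyper u) 1) :=
    isCompact_iff_compactSpace.mp (isCompact_sphere _ _)
  exact hc.integrable_of_hasCompactSupport (HasCompactSupport.of_compactSpace _)

theorem SI_add {n : ℕ} (u : En n) (f g : En n → ℝ) (hf : Continuous f) (hg : Continuous g) :
    SI u (fun v => f v + g v) = SI u f + SI u g := by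
  unfold SI
  exact integral_add (jA_SI_integrable u f hf) (jA_SI_integrable u g hg)

theorem SI_mul {n : ℕ} (u : En n) (f : En n → ℝ) (c : ℝ) :
    SI u (fun v => c * f v) = c * SI u f := by
  unfold SI
  exact integral_const_mul c _

theorem SI_congr {n : ℕ} (u : En n) (f g : En n → ℝ) (h : ∀ v : En n, ‖v‖ = 1 → inner ℝ v u = 0 → f v = g v) :
    SI u f = SI u g := by
  unfold SI
  congr 1
  funext v
  apply h
  · exact mem_sphere_zero_iff_norm.mp v.2
  · have h2 : ((v : hyper u) : En n) ∈ (Submodule.span ℝ {u})ᗮ := (v : hyper u).2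
    exact Submodule.mem_orthogonal_singleton_iff_inner_left.mp h2

/-! ### jO -/

open scoped Pointwise in
theorem jO_SI_odd_mp {F : Type*} [NormedAddCommGroup F] [InnerProductSpace ℝ F]
    [FiniteDimensional ℝ F] [MeasurableSpace F] [BorelSpace F] :
    MeasurePreserving (fun v : sphere (0 : F) 1 => -v) ((volume : Measure F).toSphere)
      ((volume : Measure F).toSphere) := by
  have hm : Measurable (fun v : sphere (0 : F) 1 => -v) := continuous_neg.measurable
  refine ⟨hm, ?_⟩
  ext s hs
  rw [Measure.map_apply hm hs, Measure.toSphere_apply' _ (hm hs), Measure.toSphere_apply' _ hs]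
  congr 1
  have h1 : Ioo (0 : ℝ) 1 • ((↑) '' ((fun v : sphere (0 : F) 1 => -v) ⁻¹' s) : Set F) =
      -(Ioo (0 : ℝ) 1 • ((↑) '' s : Set F)) := by
    ext x
    rw [Set.mem_neg, Set.mem_smul, Set.mem_smul]
    constructor
    · rintro ⟨r, hr, y, ⟨v, hv, rfl⟩, rfl⟩
      refine ⟨r, hr, _, ⟨-v, hv, rfl⟩, ?_⟩
      simp
    · rintro ⟨r, hr, y, ⟨v, hv, rfl⟩, hx⟩
      refine ⟨r, hr, _, ⟨-v, ?_, rfl⟩, ?_⟩
      · show - -v ∈ s
        rwa [neg_neg]
      · simp only [coe_neg_sphere, smul_neg]
        rw [hx, neg_neg]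
  rw [h1, Measure.measure_neg]

/-- the integral of a linear function vanishes -/
theorem SI_odd {n : ℕ} (u x : En n) : SI u (fun v => inner ℝ x v) = 0 := by
  unfold SI
  have h1 := (jO_SI_odd_mp (F := hyper u)).integral_comp
    (Homeomorph.neg (sphere (0 : hyper u) 1)).measurableEmbedding
    (fun v : sphere (0 : hyper u) 1 => (inner ℝ x (((v : hyper u) : En n)) : ℝ))
  have h2 : (fun v : sphere (0 : hyper u) 1 =>
      (inner ℝ x ((((-v : sphere (0 : hyper u) 1) : hyper u) : En n)) : ℝ)) =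
      fun v : sphere (0 : hyper u) 1 => -(inner ℝ x (((v : hyper u) : En n)) : ℝ) := by
    funext v
    simp only [coe_neg_sphere, NegMemClass.coe_neg, inner_neg_right]
  rw [h2, integral_neg] at h1
  linarith

/-! ### jE -/

theorem jE_sph_norm {n : ℕ} {u : En n} (v : sphere (0 : hyper u) 1) : ‖((v : hyper u) : En n)‖ = 1 := by
  have h := v.2
  rw [mem_sphere_zero_iff_norm] at h
  exact h

theorem jE_sph_inner {n : ℕ} {u : En n} (v : sphere (0 : hyper u) 1) :
    inner ℝ ((v : hyper u) : En n) u = 0 := by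
  have h := (v : hyper u).2
  unfold hyper at h
  exact Submodule.mem_orthogonal_singleton_iff_inner_left.1 h

theorem jE_sph_cont {n : ℕ} {u : En n} (f : En n → ℝ) (hf : Continuous f) :
    Continuous (fun v : sphere (0 : hyper u) 1 => f ((v : hyper u) : En n)) :=
  hf.comp (continuous_subtype_val.comp continuous_subtype_val)

theorem jE_sph_int {n : ℕ} {u : En n} (f : En n → ℝ) (hf : Continuous f) :
    Integrable (fun v : sphere (0 : hyper u) 1 => f ((v : hyper u) : En n))
      (volume : Measure (hyper u)).toSphere :=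
  (jE_sph_cont f hf).integrable_of_hasCompactSupport (HasCompactSupport.of_compactSpace _)



theorem SI_le {n : ℕ} (u : En n) (hu : ‖u‖ = 1) (f : En n → ℝ) (hf : Continuous f) (B : ℝ)
    (hB : ∀ w : En n, ‖w‖ = 1 → inner ℝ w u = 0 → f w ≤ B) : SI u f ≤ mass n * B := by
  rw [← SI_const u hu B]
  unfold SI
  refine integral_mono (jE_sph_int f hf) (integrable_const _) fun v => ?_
  exact hB _ (jE_sph_norm v) (jE_sph_inner v)

theorem SI_ge {n : ℕ} (u : En n) (hu : ‖u‖ = 1) (f : En n → ℝ) (hf : Continuous f) (B : ℝ)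
    (hB : ∀ w : En n, ‖w‖ = 1 → inner ℝ w u = 0 → B ≤ f w) : mass n * B ≤ SI u f := by
  rw [← SI_const u hu B]
  unfold SI
  refine integral_mono (integrable_const _) (jE_sph_int f hf) fun v => ?_
  exact hB _ (jE_sph_norm v) (jE_sph_inner v)

/-- the equality case -/
theorem SI_eq {n : ℕ} (u : En n) (hu : ‖u‖ = 1) (f : En n → ℝ) (hf : Continuous f) (B : ℝ)
    (hB : ∀ w : En n, ‖w‖ = 1 → inner ℝ w u = 0 → f w ≤ B) (heq : SI u f = mass n * B) :
    ∀ w : En n, ‖w‖ = 1 → inner ℝ w u = 0 → f w = B := by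
  intro w hw hwu
  have hint : ∫ v : sphere (0 : hyper u) 1, (B - f ((v : hyper u) : En n))
      ∂(volume : Measure (hyper u)).toSphere = 0 := by
    rw [integral_sub (integrable_const _) (jE_sph_int f hf)]
    have h1 := SI_const u hu B
    unfold SI at h1 heq
    rw [h1, heq, sub_self]
  have hnn : (0 : sphere (0 : hyper u) 1 → ℝ) ≤
      fun v : sphere (0 : hyper u) 1 => B - f ((v : hyper u) : En n) := by
    intro v
    exact sub_nonneg.2 (hB _ (jE_sph_norm v) (jE_sph_inner v))
  have hi : Integrable (fun v : sphere (0 : hyper u) 1 => B - f ((v : hyper u) : En n))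
      (volume : Measure (hyper u)).toSphere := (integrable_const _).sub (jE_sph_int f hf)
  have hae := (integral_eq_zero_iff_of_nonneg hnn hi).1 hint
  have hc : Continuous (fun v : sphere (0 : hyper u) 1 => B - f ((v : hyper u) : En n)) :=
    continuous_const.sub (jE_sph_cont f hf)
  have hzero : (fun v : sphere (0 : hyper u) 1 => B - f ((v : hyper u) : En n)) = 0 :=
    (hc.ae_eq_iff_eq _ continuous_zero).1 hae
  have hwm : w ∈ hyper u := by
    unfold hyper
    exact Submodule.mem_orthogonal_singleton_iff_inner_left.2 hwu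
  have hws : (⟨w, hwm⟩ : hyper u) ∈ sphere (0 : hyper u) 1 := by
    rw [mem_sphere_zero_iff_norm]
    exact hw
  have h2 := congrFun hzero ⟨⟨w, hwm⟩, hws⟩
  simp only [Pi.zero_apply] at h2
  linarith

theorem exists_perp {n : ℕ} (hn : 3 ≤ n) (a b : En n) :
    ∃ v : En n, ‖v‖ = 1 ∧ inner ℝ a v = 0 ∧ inner ℝ b v = 0 := by
  let S : Submodule ℝ (En n) := Submodule.span ℝ {a, b}
  have h1 : Module.finrank ℝ S ≤ 2 := by
    have h := finrank_span_le_card (R := ℝ) ({a, b} : Set (En n))
    refine h.trans ?_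
    rw [Set.toFinset_card]
    have h3 := Finset.card_le_two (a := a) (b := b)
    classical
    have : Fintype.card ({a, b} : Set (En n)) = Finset.card {a, b} := by
      rw [← Set.toFinset_card]
      congr 1
      ext x
      simp
    rw [this]
    exact Finset.card_le_two
  have h2 := S.finrank_add_finrank_orthogonal
  have h3 : Module.finrank ℝ (En n) = n := by simp
  have h4 : 0 < Module.finrank ℝ Sᗮ := by omega
  have h5 : Nontrivial Sᗮ := Module.finrank_pos_iff.1 h4
  obtain ⟨v, hv⟩ := exists_ne (0 : Sᗮ)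
  have hv0 : (v : En n) ≠ 0 := fun h => hv (Subtype.ext h)
  have hn0 : ‖(v : En n)‖ ≠ 0 := norm_ne_zero_iff.2 hv0
  have hperp := v.2
  rw [Submodule.mem_orthogonal] at hperp
  refine ⟨‖(v : En n)‖⁻¹ • (v : En n), ?_, ?_, ?_⟩
  · rw [norm_smul, norm_inv, norm_norm, inv_mul_cancel₀ hn0]
  · rw [inner_smul_right, hperp a (Submodule.subset_span (by simp)), mul_zero]
  · rw [inner_smul_right, hperp b (Submodule.subset_span (by simp)), mul_zero]

/-! ### jC -/

/-- the analytic core: `h = h_M`, `l = h_L`, `λ`-eigenfunction of the square of the transform -/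
theorem core {n : ℕ} (hn : 3 ≤ n) (h l : En n → ℝ) (hh : Continuous h) (hl : Continuous l)
    (k c : ℝ) (hk : 0 < k) (hc : 0 < c) (hpos : ∀ u : En n, ‖u‖ = 1 → 0 < h u)
    (h1 : ∀ u : En n, ‖u‖ = 1 → c * l u = k * SI u h)
    (h2 : ∀ u : En n, ‖u‖ = 1 → h u = k * SI u l) :
    ∃ B : ℝ, ∀ u : En n, ‖u‖ = 1 → h u = B := by
  obtain ⟨e, he, -, -⟩ := exists_perp hn (0 : En n) 0
  have hcomp : IsCompact (sphere (0 : En n) 1) := isCompact_sphere 0 1
  have hne : (sphere (0 : En n) 1).Nonempty := ⟨e, by simpa using he⟩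
  obtain ⟨u0, hu0, hmax⟩ := hcomp.exists_isMaxOn hne hh.continuousOn
  obtain ⟨u1, hu1, hmin⟩ := hcomp.exists_isMinOn hne hh.continuousOn
  have hu0' : ‖u0‖ = 1 := by simpa using hu0
  have hu1' : ‖u1‖ = 1 := by simpa using hu1
  have hmax' : ∀ w : En n, ‖w‖ = 1 → h w ≤ h u0 := fun w hw => hmax (by simpa using hw)
  have hmin' : ∀ w : En n, ‖w‖ = 1 → h u1 ≤ h w := fun w hw => hmin (by simpa using hw)
  have ha : 0 < mass n := mass_pos (by omega)
  set a := mass n with hadef
  have hB : 0 < h u0 := hpos u0 hu0'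
  have hm : 0 < h u1 := hpos u1 hu1'
  set r := k / c with hr
  have hr0 : 0 < r := div_pos hk hc
  have hlr : ∀ v : En n, ‖v‖ = 1 → l v = r * SI v h := by
    intro v hv
    have := h1 v hv
    rw [hr]
    field_simp
    linarith
  have hup : ∀ v : En n, ‖v‖ = 1 → l v ≤ r * (a * h u0) := by
    intro v hv
    rw [hlr v hv]
    exact mul_le_mul_of_nonneg_left (SI_le v hv h hh _ fun w hw _ => hmax' w hw) hr0.le
  have hlo : ∀ v : En n, ‖v‖ = 1 → r * (a * h u1) ≤ l v := by
    intro v hv
    rw [hlr v hv]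
    exact mul_le_mul_of_nonneg_left (SI_ge v hv h hh _ fun w hw _ => hmin' w hw) hr0.le
  have hA : h u0 ≤ k * (a * (r * (a * h u0))) := by
    conv_lhs => rw [h2 u0 hu0']
    exact mul_le_mul_of_nonneg_left (SI_le u0 hu0' l hl _ fun w hw _ => hup w hw) hk.le
  have hA2 : k * (a * (r * (a * h u1))) ≤ h u1 := by
    conv_rhs => rw [h2 u1 hu1']
    exact mul_le_mul_of_nonneg_left (SI_ge u1 hu1' l hl _ fun w hw _ => hlo w hw) hk.le
  have hq1 : 1 ≤ k * a * r * a := by
    have : 1 * h u0 ≤ (k * a * r * a) * h u0 := by linarith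
    exact le_of_mul_le_mul_right this hB
  have hq2 : k * a * r * a ≤ 1 := by
    have : (k * a * r * a) * h u1 ≤ 1 * h u1 := by linarith
    exact le_of_mul_le_mul_right this hm
  have hq : k * a * r * a = 1 := le_antisymm hq2 hq1
  have hS : SI u0 l = a * (r * (a * h u0)) := by
    have e1 := h2 u0 hu0'
    have e2 : k * SI u0 l = k * (a * (r * (a * h u0))) := by
      rw [← e1]
      linear_combination (-h u0) * hq
    exact mul_left_cancel₀ hk.ne' e2
  have hlB := SI_eq u0 hu0' l hl _ (fun w hw _ => hup w hw) hS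
  refine ⟨h u0, fun x hx => ?_⟩
  obtain ⟨v, hv, hv0, hvx⟩ := exists_perp hn u0 x
  have h3 := hlB v hv (by rw [real_inner_comm]; exact hv0)
  rw [hlr v hv] at h3
  have h4 : SI v h = a * h u0 := mul_left_cancel₀ hr0.ne' h3
  exact SI_eq v hv h hh _ (fun w hw _ => hmax' w hw) h4 x hx hvx

/-! ### jF -/

theorem jF_V1_ball' {n : ℕ} (z : En n) (r : ℝ) (hr : 0 ≤ r) (u : En n) (hu : ‖u‖ = 1) :
    V1 (proj u (closedBall z r)) = (kappa (n - 2))⁻¹ * (mass n * r) := by
  rw [V1_proj _ u hu]
  congr 1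
  have h1 : SI u (supp (closedBall z r)) = SI u (fun v => inner ℝ z v + r) := by
    refine SI_congr u _ _ fun v hv _ => ?_
    rw [supp_ball z r hr, hv, mul_one]
  rw [h1, SI_add u (fun v => inner ℝ z v) (fun _ => r) (by fun_prop) continuous_const, SI_odd,
    SI_const u hu, zero_add]

theorem forward {n : ℕ} (hn : 3 ≤ n) (K L M : Set (En n)) (hK : IsBody K)
    (h1 : IsProjBody K L) (h2 : IsProjBody L M) (hh : Homothetic M K) :
    ∃ (z : En n) (r : ℝ), 0 < r ∧ K = closedBall z r := by
  obtain ⟨x, c, hc, hM⟩ := hh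
  have hKne : K.Nonempty := hK.int.mono interior_subset
  have hLne : L.Nonempty := h1.1.int.mono interior_subset
  have hMne : M.Nonempty := h2.1.int.mono interior_subset
  have hk : 0 < (kappa (n - 2))⁻¹ := inv_pos.mpr (kappa_pos _)
  have e1 : supp M = fun v => inner ℝ x v + c * supp K v := by
    funext v
    rw [hM]
    exact supp_hom K hK.compact hKne x c hc v
  have e2 : ∀ u : En n, ‖u‖ = 1 → supp M u = (kappa (n - 2))⁻¹ * SI u (supp L) := by
    intro u hu
    rw [h2.2 u hu, V1_proj L u hu]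
  have heven : ∀ u : En n, ‖u‖ = 1 → supp M (-u) = supp M u := by
    intro u hu
    rw [e2 u hu, e2 (-u) (by rw [norm_neg]; exact hu), SI_even]
  have hcK : Continuous (supp K) := supp_cont K hK.compact hKne
  have e3 : ∀ u : En n, ‖u‖ = 1 → c * supp L u = (kappa (n - 2))⁻¹ * SI u (supp M) := by
    intro u hu
    rw [h1.2 u hu, V1_proj K u hu, e1,
      SI_add u (fun v => inner ℝ x v) (fun v => c * supp K v) (by fun_prop)
        (continuous_const.mul hcK), SI_odd, SI_mul, zero_add]
    ring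
  obtain ⟨B, hB⟩ := core hn (supp M) (supp L) (supp_cont M h2.1.compact hMne)
    (supp_cont L h1.1.compact hLne) _ c hk hc (fun u hu => supp_pos M h2.1 heven u hu) e3 e2
  have h := ball_of_supp (by omega) K hK (-(c⁻¹ • x)) (B / c) (by
    intro u hu
    have h3 := hB u hu
    rw [e1] at h3
    have h4 : inner ℝ x u + c * supp K u = B := h3
    rw [inner_neg_left, real_inner_smul_left, ← h4]
    field_simp
    ring)
  exact ⟨_, _, h.1, h.2⟩

theorem backward {n : ℕ} (hn : 3 ≤ n) (z : En n) (r : ℝ) (hr : 0 < r) :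
    ∃ L M : Set (En n), IsProjBody (closedBall z r) L ∧ IsProjBody L M ∧
      Homothetic M (closedBall z r) := by
  have hk : 0 < (kappa (n - 2))⁻¹ := inv_pos.mpr (kappa_pos _)
  have hm : 0 < mass n := mass_pos (by omega)
  set ρ : ℝ := (kappa (n - 2))⁻¹ * (mass n * r) with hρ
  have hρ0 : 0 < ρ := by positivity
  set ρ' : ℝ := (kappa (n - 2))⁻¹ * (mass n * ρ) with hρ'
  have hρ'0 : 0 < ρ' := by positivity
  refine ⟨closedBall 0 ρ, closedBall 0 ρ', ⟨isBody_ball 0 ρ hρ0, fun u hu => ?_⟩,
    ⟨isBody_ball 0 ρ' hρ'0, fun u hu => ?_⟩, ?_⟩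
  · rw [jF_V1_ball' z r hr.le u hu, supp_ball 0 ρ hρ0.le, hu, inner_zero_left]
    ring
  · rw [jF_V1_ball' 0 ρ hρ0.le u hu, supp_ball 0 ρ' hρ'0.le, hu, inner_zero_left]
    ring
  · set c := ρ' / r with hc
    have hc0 : 0 < c := by positivity
    refine ⟨-(c • z), c, hc0, ?_⟩
    ext w
    rw [mem_closedBall_zero_iff, Set.mem_image]
    constructor
    · intro hw
      refine ⟨c⁻¹ • w + z, ?_, ?_⟩
      · rw [mem_closedBall, dist_eq_norm, add_sub_cancel_right, norm_smul, Real.norm_eq_abs,
          abs_of_pos (inv_pos.mpr hc0)]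
        calc c⁻¹ * ‖w‖ ≤ c⁻¹ * ρ' := mul_le_mul_of_nonneg_left hw (inv_pos.mpr hc0).le
          _ = r := by rw [hc]; field_simp
      · rw [smul_add, smul_smul, mul_inv_cancel₀ hc0.ne', one_smul]
        abel
    · rintro ⟨y, hy, rfl⟩
      have e : -(c • z) + c • y = c • (y - z) := by rw [smul_sub]; abel
      rw [e, norm_smul, Real.norm_eq_abs, abs_of_pos hc0]
      rw [mem_closedBall, dist_eq_norm] at hy
      calc c * ‖y - z‖ ≤ c * r := mul_le_mul_of_nonneg_left hy hc0.le
        _ = ρ' := by rw [hc]; field_simp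

/-- For `d ≥ 3` (here `n = d`), a convex body `K` in `ℝᵈ` is homothetic to `Π₁² K` if and only if `K`
is a closed Euclidean ball. -/
theorem result (n : ℕ) (hn : 3 ≤ n) (K : Set (En n)) (hK : IsBody K) :
    (∃ L M : Set (En n), IsProjBody K L ∧ IsProjBody L M ∧ Homothetic M K) ↔
      ∃ (z : En n) (r : ℝ), 0 < r ∧ K = closedBall z r := by
  constructor
  · rintro ⟨L, M, h1, h2, hh⟩
    exact forward hn K L M hK h1 h2 hh
  · rintro ⟨z, r, hr, rfl⟩
    exact backward hn z r hr

end Pool.Agent.Results.MP_33e5ad_gt.SecondIterateOne
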